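import Pool.Agent.N218.GB.KEY
import Pool.Agent.N856.JL.Stm

/-!
# JL-KEY: the sum over the boxes (helper763)

Port of `Pool/Agent/N218/GB/KEY.lean` (helper218) and `Pool/Agent/R426/QJ/KEY.lean` (helper33).
-/

set_option autoImplicit false

open scoped Classical

namespace Pool.Agent.N763.JL.KEY

open Finset
open Pool.Agent.Y703.CX (sm la jj XX)
open Pool.Agent.N916.GB (Po SS SA Gd ps HB S_EQ S_BIL)
open Pool.Agent.Y703.CQ (nr sg)
open Pool.Agent.N973.ND (uu)
open Pool.Agent.N856.JA.QK (c2)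
open Pool.Agent.N856.JL
open Pool.Agent.N218.GB.KEY (ph ky le_XX cl_prime cl_odd sm_la_card sm_la_prod CC mem_CC sm_fill
  la_fill ph_fill im_fill ky_fill inj_fill inj_ph CC_facts CC_disj Bil hb_box ps_card card_sub TP
  mem_TP harm_TP)

/-- the keys which occur -/
structure KP (K Z : Finset ℕ) (X z H k : ℕ) (S₀ : Finset ℕ) (J : Finset (ℕ × ℕ)) : Prop where
  cl : ∀ q ∈ S₀, Po q
  le : ∀ q ∈ S₀, q ≤ z
  inj : Set.InjOn Prod.fst (J : Set (ℕ × ℕ))
  card : S₀.card + J.card ≤ k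
  prod : (∏ p ∈ S₀, p) * ∏ e ∈ J, XX H e.1 ≤ X
  odd : ∀ e ∈ J, e.2 % 2 = 1
  mod : ((∏ p ∈ S₀, p) * ∏ e ∈ J, e.2) % 120 ∈ K
  disj : Disjoint S₀ Z

/-- the large primes are not in `Z` -/
theorem disj_sm {Z : Finset ℕ} {z : ℕ} (hZ : ∀ u ∈ Z, u ≤ z) (S : Finset ℕ) :
    Disjoint S Z ↔ Disjoint (sm z S) Z := by
  rw [Finset.disjoint_left, Finset.disjoint_left]
  unfold sm
  constructor
  · intro h a ha
    exact h (Finset.mem_filter.1 ha).1
  · intro h a ha haZ
    exact h (Finset.mem_filter.2 ⟨ha, hZ a haZ⟩) haZ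

/-- the product of odd numbers modulo `4` -/
theorem prod_uu {α : Type} (T : Finset α) (f : α → ℕ) (h : ∀ a ∈ T, f a % 2 = 1) :
    ((∏ a ∈ T, f a) % 4 = 1 ∧ ∑ a ∈ T, uu (f a) = 0) ∨
    ((∏ a ∈ T, f a) % 4 = 3 ∧ ∑ a ∈ T, uu (f a) = 1) := by
  classical
  induction T using Finset.induction_on with
  | empty => left; simp
  | insert a S ha ih =>
    have ih' := ih fun p hp => h p (Finset.mem_insert_of_mem hp)
    have ho := h a (Finset.mem_insert_self a S)
    rw [Finset.prod_insert ha, Finset.sum_insert ha, Nat.mul_mod]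
    have hc : f a % 4 = 1 ∨ f a % 4 = 3 := by omega
    rcases hc with hc | hc
    · have h5 : uu (f a) = 0 := by
        unfold Pool.Agent.N973.ND.uu
        rw [if_neg (by omega)]
      rw [hc, h5, zero_add]
      rcases ih' with ⟨h3, h4⟩ | ⟨h3, h4⟩
      · left
        rw [h3, h4]
        exact ⟨by norm_num, rfl⟩
      · right
        rw [h3, h4]
        exact ⟨by norm_num, rfl⟩
    · have h5 : uu (f a) = 1 := by
        unfold Pool.Agent.N973.ND.uu
        rw [if_pos hc]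
      rw [hc, h5]
      rcases ih' with ⟨h3, h4⟩ | ⟨h3, h4⟩
      · right
        rw [h3, h4]
        exact ⟨by norm_num, by decide⟩
      · left
        rw [h3, h4]
        exact ⟨by norm_num, by decide⟩

theorem rr_iff {K Z : Finset ℕ} {X z H k : ℕ} (hH : 1 ≤ H) (hZ : ∀ u ∈ Z, u ≤ z) {S : Finset ℕ}
    (hS : ∀ q ∈ S, Po q)
    (hi : Set.InjOn (ph H) (la z S : Set ℕ)) :
    S ∈ RgJ K Z X z H k ↔ KP K Z X z H k (ky z H S).1 (ky z H S).2 := by
  set J := (la z S).image (ph H) with hJ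
  have hky : ky z H S = (sm z S, J) := rfl
  rw [hky]
  have f2 : J.card = (la z S).card := Finset.card_image_of_injOn hi
  have f8 : ∏ e ∈ J, XX H e.1 = ∏ p ∈ la z S, XX H (jj H p) := by
    rw [hJ, Finset.prod_image hi]
    rfl
  have f9 : Set.InjOn (jj H) (la z S : Set ℕ) ↔ Set.InjOn Prod.fst (J : Set (ℕ × ℕ)) := by
    constructor
    · intro h a ha b hb hab
      rw [Finset.mem_coe, hJ, Finset.mem_image] at ha hb
      obtain ⟨p, hp, rfl⟩ := ha
      obtain ⟨q, hq, rfl⟩ := hb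
      rw [h (Finset.mem_coe.2 hp) (Finset.mem_coe.2 hq) hab]
    · intro h p hp q hq hpq
      exact hi hp hq (h (Finset.mem_coe.2 (Finset.mem_image_of_mem _ (Finset.mem_coe.1 hp)))
        (Finset.mem_coe.2 (Finset.mem_image_of_mem _ (Finset.mem_coe.1 hq))) hpq)
  have hsm : sm z S ⊆ S := Finset.filter_subset _ _
  have hla : la z S ⊆ S := Finset.filter_subset _ _
  have f10 : ((∏ p ∈ sm z S, p) * ∏ e ∈ J, e.2) % 120 = (∏ p ∈ S, p) % 120 := by
    rw [← sm_la_prod z S, hJ, Finset.prod_image hi]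
    show ((∏ p ∈ sm z S, p) * ∏ p ∈ la z S, p % 120) % 120 =
      ((∏ p ∈ sm z S, p) * ∏ p ∈ la z S, p) % 120
    rw [Nat.mul_mod, ← Finset.prod_nat_mod, ← Nat.mul_mod]
  have f11 : ∀ e ∈ J, e.2 % 2 = 1 := by
    intro e he
    rw [hJ, Finset.mem_image] at he
    obtain ⟨p, hp, rfl⟩ := he
    show p % 120 % 2 = 1
    have := cl_odd (hS p (hla hp))
    omega
  constructor
  · intro h
    unfold RgJ SSJ at h
    rw [Finset.mem_filter, Finset.mem_filter] at h
    obtain ⟨⟨h1, h5⟩, h2, h3, h4⟩ := h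
    unfold SS at h1
    rw [Finset.mem_filter] at h1
    obtain ⟨-, h6, h10⟩ := h1
    refine ⟨fun q hq => hS q (hsm hq), fun q hq => (Finset.mem_filter.1 hq).2,
      f9.1 h2, ?_, ?_, f11, ?_, (disj_sm hZ S).1 h5⟩
    · rw [f2, sm_la_card]
      exact h3
    · rw [f8]
      exact h4
    · rw [f10]
      exact h6.2
  · rintro ⟨k1, k2, k7, k8, k9, -, k10, k11⟩
    have hprod : ∏ p ∈ S, p ≤ X := by
      rw [← sm_la_prod z S]
      refine le_trans (Nat.mul_le_mul_left _ ?_) k9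
      rw [f8]
      refine Finset.prod_le_prod' fun p hp => le_XX hH (cl_prime (hS p (hla hp))).one_le
    rw [f10] at k10
    unfold RgJ SSJ SS
    rw [Finset.mem_filter, Finset.mem_filter, Finset.mem_filter, Finset.mem_powerset]
    refine ⟨⟨⟨?_, ⟨hS, k10⟩, hprod⟩, (disj_sm hZ S).2 k11⟩, f9.2 k7, ?_, ?_⟩
    · intro q hq
      rw [Finset.mem_range]
      have h1 : q ∣ ∏ p ∈ S, p := Finset.dvd_prod_of_mem _ hq
      have h2 : 0 < ∏ p ∈ S, p := Finset.prod_pos fun p hp => (cl_prime (hS p hp)).pos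
      have := Nat.le_of_dvd h2 h1
      omega
    · rw [← sm_la_card z S, ← f2]
      exact k8
    · rw [← f8]
      exact k9

theorem rr_facts {K Z : Finset ℕ} {X z H k : ℕ} {S : Finset ℕ} (hS : S ∈ RgJ K Z X z H k) :
    (∀ q ∈ S, Po q) ∧ Set.InjOn (jj H) (la z S : Set ℕ) ∧ ∏ p ∈ S, p ≤ X := by
  unfold RgJ SSJ SS at hS
  rw [Finset.mem_filter, Finset.mem_filter, Finset.mem_filter] at hS
  exact ⟨hS.1.1.2.1.1, hS.2.1, hS.1.1.2.2⟩

theorem key_bij {K Z : Finset ℕ} {X z H k : ℕ} (hH : 1 ≤ H) (hZ : ∀ u ∈ Z, u ≤ z)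
    {S₀ : Finset ℕ} {J : Finset (ℕ × ℕ)}
    (hkey : KP K Z X z H k S₀ J) (P : Finset ℕ → Prop) [DecidablePred P] [DecidableEq J] :
    ((Fintype.piFinset fun i : J => CC z H i).filter fun p => P (S₀ ∪ univ.image p)).card =
      ((RgJ K Z X z H k).filter fun S => ky z H S = (S₀, J) ∧ P S).card := by
  have h₀ := hkey.le
  apply Finset.card_bij (fun (p : J → ℕ) _ => S₀ ∪ univ.image p)
  · intro p hp
    rw [Finset.mem_filter, Fintype.mem_piFinset] at hp
    obtain ⟨hp, hP⟩ := hp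
    have hk := ky_fill hH h₀ hp
    rw [Finset.mem_filter]
    refine ⟨?_, hk, hP⟩
    rw [rr_iff hH hZ _ (inj_fill hH h₀ hp), hk]
    · exact hkey
    · intro q hq
      rw [Finset.mem_union, Finset.mem_image] at hq
      rcases hq with hq | ⟨i, -, rfl⟩
      · exact hkey.cl q hq
      · exact ((mem_CC hH).1 (hp i)).1
  · intro p hp p' hp' h
    rw [Finset.mem_filter, Fintype.mem_piFinset] at hp hp'
    have h1 := la_fill hH h₀ hp.1
    rw [h, la_fill hH h₀ hp'.1] at h1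
    funext i
    have h2 : p i ∈ univ.image p' := by
      rw [h1]
      exact Finset.mem_image_of_mem _ (Finset.mem_univ _)
    rw [Finset.mem_image] at h2
    obtain ⟨j, -, hj⟩ := h2
    have h3 := ph_fill hH hp.1 i
    have h4 := ph_fill hH hp'.1 j
    rw [hj, h3] at h4
    rw [← hj, Subtype.ext h4]
  · intro S hS
    rw [Finset.mem_filter] at hS
    obtain ⟨hSR, hSk, hSP⟩ := hS
    obtain ⟨hSO, hSI, -⟩ := rr_facts hSR
    have hk1 : sm z S = S₀ := congrArg Prod.fst hSk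
    have hk2 : (la z S).image (ph H) = J := congrArg Prod.snd hSk
    have hex : ∀ i : J, ∃ q ∈ la z S, ph H q = i := by
      rintro ⟨i, hi⟩
      rw [← hk2, Finset.mem_image] at hi
      exact hi
    choose p hp1 hp2 using hex
    have him : univ.image p = la z S := by
      ext q
      rw [Finset.mem_image]
      constructor
      · rintro ⟨i, -, rfl⟩
        exact hp1 i
      · intro hq
        have hjq : ph H q ∈ J := by
          rw [← hk2]
          exact Finset.mem_image_of_mem _ hq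
        exact ⟨⟨ph H q, hjq⟩, Finset.mem_univ _, inj_ph hSI (Finset.mem_coe.2 (hp1 _))
          (Finset.mem_coe.2 hq) (hp2 ⟨ph H q, hjq⟩)⟩
    have hSe : S₀ ∪ univ.image p = S := by
      rw [him, ← hk1]
      unfold sm la
      exact Finset.filter_union_filter_not_eq _ _
    refine ⟨p, ?_, hSe⟩
    rw [Finset.mem_filter, Fintype.mem_piFinset, hSe]
    refine ⟨fun i => (mem_CC hH).2 ⟨hSO _ (Finset.mem_filter.1 (hp1 i)).1,
      not_le.1 (Finset.mem_filter.1 (hp1 i)).2, hp2 i⟩, hSP⟩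

/-- the statement for the boxes with the decidability of equality as a variable -/
theorem box_dec (hE : S_EQ) (hB : S_BOXJ) {I : Type} [Fintype I]
    {F : I → Finset ℕ} (hF : Fx F) {ε : ℝ} {K V : ℕ} (hL : LARJ I ε K V) (ι : Type)
    [Fintype ι] [inst : DecidableEq ι]
    (lo : LinearOrder ι) (C : ι → Finset ℕ) (X : ι → ℕ) (κ : ℝ) (S₀ : Finset ℕ) (h1 : 0 ≤ κ)
    (h2 : ∀ i, (C i).card ≤ X i) (h3 : HB C X κ) (h4 : ∀ u ∈ S₀, Po u)
    (h8 : Disjoint S₀ (ZZ F))
    (h5 : ∀ i, ∀ p ∈ C i, Po p ∧ p ∉ S₀ ∪ ZZ F) (h6 : ∀ i l, i ≠ l → Disjoint (C i) (C l))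
    (h7 : ∀ p ∈ Fintype.piFinset C, ∀ i : I,
      ∑ u ∈ S₀, uu u + ∑ u ∈ F i, uu u + ∑ j, uu (p j) = 1) :
    |(((Fintype.piFinset C).filter fun p => NdJ F K V S₀ (univ.image p) ∧
        GdJ F (S₀ ∪ univ.image p)).card : ℝ) -
      c2 ^ Fintype.card I *
        (((Fintype.piFinset C).filter fun p => NdJ F K V S₀ (univ.image p)).card : ℝ)| ≤
    ε * (((Fintype.piFinset C).filter fun p => NdJ F K V S₀ (univ.image p)).card : ℝ) +
    2 ^ (((S₀ ∪ ZZ F).card + 1) * Fintype.card ι + (ps ι).card) * (κ * ∏ j, (X j : ℝ)) := by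
  have e : inst = fun a b => lo.toDecidableEq a b := Subsingleton.elim _ _
  subst e
  exact hB hE I F hF ε K V hL ι C X κ S₀ h1 h2 h3 h4 h8 h5 h6 h7

theorem per_key (hE : S_EQ) (hB : S_BOXJ) {I : Type} [Fintype I]
    {F : I → Finset ℕ} (hF : Fx F) {K : Finset ℕ} (hOk : OkJ K F)
    {ε : ℝ} {L V : ℕ} (hε : 0 ≤ ε) (hL : LARJ I ε L V) {X z H k : ℕ} (hH : 1 ≤ H)
    {κ : ℝ} (hκ : 0 ≤ κ) (hZ : ∀ u ∈ ZZ F, u ≤ z) (hZk : (ZZ F).card ≤ k)
    {S₀ : Finset ℕ} {J : Finset (ℕ × ℕ)} (hk : KP K (ZZ F) X z H k S₀ J)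
    (hHB : HB (fun i : J => CC z H i) (fun i => XX H i.1.1) κ) :
    |(((RgJ K (ZZ F) X z H k).filter fun S => ky z H S = (S₀, J) ∧
        (NdJ F L V (sm z S) (la z S) ∧ GdJ F S)).card : ℝ) -
      c2 ^ Fintype.card I * (((RgJ K (ZZ F) X z H k).filter fun S => ky z H S = (S₀, J) ∧
        NdJ F L V (sm z S) (la z S)).card : ℝ)| ≤
    ε * (((RgJ K (ZZ F) X z H k).filter fun S => ky z H S = (S₀, J)).card : ℝ) +
      (3 ^ (9 * k ^ 2 + 9) * κ) * (X / ((∏ p ∈ S₀, p : ℕ) : ℝ)) := by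
  have hinj : Function.Injective (fun i : J => i.1.1) := by
    intro a b hab
    exact Subtype.ext (hk.inj (Finset.mem_coe.2 a.2) (Finset.mem_coe.2 b.2) hab)
  let lo : LinearOrder J := LinearOrder.lift' (fun i : J => i.1.1) hinj
  have hFP : ∀ i : I, ∀ p ∈ F i, Po p := hF.po
  have hbox := box_dec hE hB hF hL J lo (fun i => CC z H i)
    (fun i => XX H i.1.1) κ S₀ hκ
    (fun i => by
      refine (Finset.card_filter_le _ _).trans ?_
      rw [Nat.card_Icc]
      omega)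
    hHB (fun u hu => hk.cl u hu) hk.disj
    (fun i p hp => by
      obtain ⟨h3, h4, h5, h6⟩ := CC_facts hH hp
      refine ⟨h3, fun h => ?_⟩
      rw [Finset.mem_union] at h
      rcases h with h | h
      · have := hk.le p h
        omega
      · have := hZ p h
        omega)
    (fun i l hil => CC_disj hH i l hil)
    (by
      intro p hp i
      rw [Fintype.mem_piFinset] at hp
      have h1 := prod_uu S₀ (fun p => p) fun p hp => cl_odd (hk.cl p hp)
      have h2 := prod_uu (univ : Finset J) p fun j _ => cl_odd (CC_facts hH (hp j)).1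
      have h3 := prod_uu (F i) (fun p => p) fun p hp => cl_odd (hFP i p hp)
      have h4 := (hOk _ hk.mod).2.2 i
      have h5 : (∏ e ∈ J, e.2) % 4 = (∏ j : J, p j) % 4 := by
        rw [← Finset.prod_coe_sort J (fun e => e.2)]
        rw [Finset.prod_nat_mod, Finset.prod_nat_mod univ 4 (fun j : J => p j)]
        congr 1
        exact Finset.prod_congr rfl fun j _ => (CC_facts hH (hp j)).2.2.2.symm
      have h6 : (((∏ p ∈ S₀, p) * ∏ e ∈ J, e.2) % 120 * ∏ p ∈ F i, p) % 4 =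
          ((((∏ p ∈ S₀, p) % 4) * ((∏ j : J, p j) % 4)) * ((∏ p ∈ F i, p) % 4)) % 4 := by
        rw [Nat.mul_mod, Nat.mod_mod_of_dvd _ (by norm_num), Nat.mul_mod (∏ p ∈ S₀, p), h5]
        simp only [Nat.mul_mod, Nat.mod_mod]
      rw [h6] at h4
      rcases h1 with ⟨h1, h1'⟩ | ⟨h1, h1'⟩ <;> rcases h2 with ⟨h2, h2'⟩ | ⟨h2, h2'⟩ <;>
        rcases h3 with ⟨h3, h3'⟩ | ⟨h3, h3'⟩ <;> rw [h1, h2, h3] at h4 <;>
        rw [h1', h2', h3'] <;> first | (exfalso; revert h4; decide) | decide)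
  have e1 : ((Fintype.piFinset fun i : J => CC z H i).filter fun p => NdJ F L V S₀ (univ.image p) ∧
      GdJ F (S₀ ∪ univ.image p)).card =
      ((RgJ K (ZZ F) X z H k).filter fun S => ky z H S = (S₀, J) ∧
        (NdJ F L V (sm z S) (la z S) ∧ GdJ F S)).card := by
    rw [← key_bij hH hZ hk (fun S => NdJ F L V (sm z S) (la z S) ∧ GdJ F S)]
    congr 1
    refine Finset.filter_congr fun p hp => ?_
    rw [Fintype.mem_piFinset] at hp
    rw [sm_fill hH hk.le hp, la_fill hH hk.le hp]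
  have e2 : ((Fintype.piFinset fun i : J => CC z H i).filter fun p =>
      NdJ F L V S₀ (univ.image p)).card =
      ((RgJ K (ZZ F) X z H k).filter fun S => ky z H S = (S₀, J) ∧
        NdJ F L V (sm z S) (la z S)).card := by
    rw [← key_bij hH hZ hk (fun S => NdJ F L V (sm z S) (la z S))]
    congr 1
    refine Finset.filter_congr fun p hp => ?_
    rw [Fintype.mem_piFinset] at hp
    rw [sm_fill hH hk.le hp, la_fill hH hk.le hp]
  rw [e1, e2] at hbox
  refine hbox.trans (add_le_add ?_ ?_)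
  · have h4 : (((RgJ K (ZZ F) X z H k).filter fun S => ky z H S = (S₀, J) ∧
        NdJ F L V (sm z S) (la z S)).card : ℝ) ≤
        (((RgJ K (ZZ F) X z H k).filter fun S => ky z H S = (S₀, J)).card : ℝ) := by
      have : (RgJ K (ZZ F) X z H k).filter (fun S => ky z H S = (S₀, J) ∧
          NdJ F L V (sm z S) (la z S)) ⊆
          (RgJ K (ZZ F) X z H k).filter fun S => ky z H S = (S₀, J) := by
        intro S hS
        rw [Finset.mem_filter] at hS ⊢
        exact ⟨hS.1, hS.2.1⟩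
      exact_mod_cast Finset.card_le_card this
    exact mul_le_mul_of_nonneg_left h4 hε
  · have hcJ : Fintype.card J = J.card := Fintype.card_coe J
    have hcard := hk.card
    have hJK : J.card ≤ k := by omega
    have hSK : (S₀ ∪ ZZ F).card ≤ 2 * k := by
      have := Finset.card_union_le S₀ (ZZ F)
      omega
    obtain ⟨n, hn⟩ : ∃ n : ℕ, n = (@ps J _ lo).card := ⟨_, rfl⟩
    have hpr : n ≤ k * k := by
      rw [hn]
      refine (@ps_card J _ lo).trans ?_
      rw [hcJ]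
      exact Nat.mul_le_mul hJK hJK
    rw [← hn]
    have h5 : (2 : ℝ) ^ (((S₀ ∪ ZZ F).card + 1) * Fintype.card J + n) ≤ 3 ^ (9 * k ^ 2 + 9) := by
      have hexp : ((S₀ ∪ ZZ F).card + 1) * Fintype.card J + n ≤ 9 * k ^ 2 + 9 := by
        rw [hcJ]
        have h6 : (S₀ ∪ ZZ F).card * J.card ≤ (2 * k) * k := Nat.mul_le_mul hSK hJK
        have h7 : k ≤ k * k := Nat.le_mul_self k
        have h8 : ((S₀ ∪ ZZ F).card + 1) * J.card + n = (S₀ ∪ ZZ F).card * J.card + J.card + n := by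
          ring
        have h9 : k ^ 2 = k * k := by ring
        have h10 : (2 * k) * k = 2 * (k * k) := by ring
        rw [h8, h9]
        omega
      calc (2 : ℝ) ^ (((S₀ ∪ ZZ F).card + 1) * Fintype.card J + n) ≤ 2 ^ (9 * k ^ 2 + 9) :=
            pow_le_pow_right₀ (by norm_num) hexp
        _ ≤ 3 ^ (9 * k ^ 2 + 9) := by
            apply pow_le_pow_left₀ <;> norm_num
    have hN0 : (0 : ℝ) < ((∏ p ∈ S₀, p : ℕ) : ℝ) := by
      exact_mod_cast Finset.prod_pos fun p hp => (cl_prime (hk.cl p hp)).pos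
    have hprod : ∏ j : J, (XX H j.1.1 : ℝ) ≤ X / ((∏ p ∈ S₀, p : ℕ) : ℝ) := by
      have h5 : ∏ j : J, (XX H j.1.1 : ℝ) = ((∏ k ∈ J, XX H k.1 : ℕ) : ℝ) := by
        rw [← Finset.prod_coe_sort J (fun k => XX H k.1)]
        push_cast
        rfl
      rw [h5, le_div_iff₀ hN0, mul_comm]
      exact_mod_cast hk.prod
    calc (2 : ℝ) ^ (((S₀ ∪ ZZ F).card + 1) * Fintype.card J + n) *
        (κ * ∏ j : J, (XX H j.1.1 : ℝ)) ≤
        3 ^ (9 * k ^ 2 + 9) * (κ * (X / ((∏ p ∈ S₀, p : ℕ) : ℝ))) := by gcongr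
      _ = _ := by ring

/-- **JL-KEY.** -/
theorem t_KEYJ : S_KEYJ := by
  intro hBIL hEQ hBOX
  obtain ⟨C, hC1, hB⟩ := hBIL
  refine ⟨C, hC1, ?_⟩
  intro I _ F hF K hOk ε L V hε hL X z H k N κ hX hH hz hκ hκz hN hZ hZk
  set T := (RgJ K (ZZ F) X z H k).image (ky z H) with hT
  set B : ℝ := 3 ^ (9 * k ^ 2 + 9) * κ with hBd
  have hB0 : 0 ≤ B := by positivity
  have hfib : ∀ (P : Finset ℕ → Prop) [DecidablePred P],
      (((RgJ K (ZZ F) X z H k).filter fun S => P S).card : ℝ) =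
      ∑ e ∈ T, (((RgJ K (ZZ F) X z H k).filter fun S => ky z H S = e ∧ P S).card : ℝ) := by
    intro P _
    rw [Finset.card_eq_sum_card_fiberwise (f := ky z H) (t := T) (by
      intro S hS
      rw [Finset.mem_coe, Finset.mem_filter] at hS
      exact Finset.mem_coe.2 (Finset.mem_image_of_mem _ hS.1))]
    push_cast
    refine Finset.sum_congr rfl fun e _ => ?_
    congr 2
    ext S
    simp only [Finset.mem_filter]
    tauto
  have hKP : ∀ e ∈ T, KP K (ZZ F) X z H k e.1 e.2 := by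
    intro e he
    rw [hT, Finset.mem_image] at he
    obtain ⟨S, hS, rfl⟩ := he
    obtain ⟨f1, f2, f3⟩ := rr_facts hS
    exact (rr_iff hH hZ f1 (inj_ph f2)).1 hS
  have hf1 := hfib fun S => NdJ F L V (sm z S) (la z S) ∧ GdJ F S
  have hf2 := hfib fun S => NdJ F L V (sm z S) (la z S)
  have hf3 := hfib fun _ => True
  simp only [and_true, Finset.filter_true] at hf3
  rw [hf1, hf2, hf3, Finset.mul_sum, ← Finset.sum_sub_distrib]
  refine (Finset.abs_sum_le_sum_abs _ _).trans ?_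
  have h3 : ∀ e ∈ T, |(((RgJ K (ZZ F) X z H k).filter fun S => ky z H S = e ∧
        (NdJ F L V (sm z S) (la z S) ∧ GdJ F S)).card : ℝ) -
      c2 ^ Fintype.card I * (((RgJ K (ZZ F) X z H k).filter fun S => ky z H S = e ∧
        NdJ F L V (sm z S) (la z S)).card : ℝ)| ≤
      ε * (((RgJ K (ZZ F) X z H k).filter fun S => ky z H S = e).card : ℝ) +
      B * (X / ((∏ p ∈ e.1, p : ℕ) : ℝ)) := by
    intro e he
    obtain ⟨S₀, J⟩ := e
    have hk' := hKP _ he
    exact per_key hEQ hBOX hF hOk hε.le hL hH hκ hZ hZk hk' (hb_box hB hH hz hκ hκz)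
  refine (Finset.sum_le_sum h3).trans ?_
  rw [Finset.sum_add_distrib, ← Finset.mul_sum]
  refine add_le_add le_rfl ?_
  have hsub : T ⊆ (TP X) ×ˢ ((range N ×ˢ range 120).powerset.filter fun J => J.card ≤ k) := by
    intro e he
    have hk' := hKP e he
    rw [hT, Finset.mem_image] at he
    obtain ⟨S, hS, rfl⟩ := he
    obtain ⟨f1, f2, f3⟩ := rr_facts hS
    rw [Finset.mem_product, Finset.mem_filter, Finset.mem_powerset]
    refine ⟨mem_TP (fun q hq => cl_prime (hk'.cl q hq)) ?_, ?_, ?_⟩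
    · refine le_trans ?_ f3
      exact Nat.le_of_dvd (Finset.prod_pos fun p hp => (cl_prime (f1 p hp)).pos)
        (Finset.prod_dvd_prod_of_subset _ _ _ (Finset.filter_subset _ _))
    · intro e he
      unfold ky at he
      rw [Finset.mem_image] at he
      obtain ⟨q, hq, rfl⟩ := he
      have hqS := (Finset.mem_filter.1 hq).1
      have hq0 := (cl_prime (f1 q hqS)).pos
      have hqX : q ≤ X := by
        refine le_trans ?_ f3
        exact Nat.le_of_dvd (Finset.prod_pos fun p hp => (cl_prime (f1 p hp)).pos)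
          (Finset.dvd_prod_of_mem _ hqS)
      unfold ph
      rw [Finset.mem_product, Finset.mem_range, Finset.mem_range]
      refine ⟨?_, Nat.mod_lt _ (by norm_num)⟩
      have h3 : ((jj H q : ℕ) : ℝ) < N := by
        refine lt_of_le_of_lt (Nat.floor_le (mul_nonneg (Nat.cast_nonneg _)
          (Real.log_nonneg (by exact_mod_cast hq0)))) ?_
        refine lt_of_le_of_lt ?_ hN
        refine mul_le_mul_of_nonneg_left ?_ (Nat.cast_nonneg _)
        exact Real.log_le_log (by exact_mod_cast hq0) (by exact_mod_cast hqX)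
      exact_mod_cast h3
    · have := hk'.card
      omega
  refine (Finset.sum_le_sum_of_subset_of_nonneg hsub fun _ _ _ => by positivity).trans ?_
  rw [Finset.sum_product]
  simp only [Finset.sum_const, nsmul_eq_mul]
  rw [← Finset.mul_sum]
  have h4 : ((((range N ×ˢ range 120).powerset.filter fun J => J.card ≤ k).card : ℕ) : ℝ) ≤
      (120 * N + 120 : ℝ) ^ k := by
    have h5 := card_sub (range N ×ˢ range 120) k
    rw [Finset.card_product, Finset.card_range, Finset.card_range] at h5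
    calc ((((range N ×ˢ range 120).powerset.filter fun J => J.card ≤ k).card : ℕ) : ℝ) ≤
          (((N * 120 + 1) ^ k : ℕ) : ℝ) := by exact_mod_cast h5
      _ = (N * 120 + 1 : ℝ) ^ k := by push_cast; ring
      _ ≤ _ := by
        apply pow_le_pow_left₀ (by positivity)
        have : (0 : ℝ) ≤ N := Nat.cast_nonneg _
        linarith
  have h5 : ∑ S ∈ TP X, B * (X / ((∏ p ∈ S, p : ℕ) : ℝ)) ≤ B * (X * (1 + Real.log X)) := by
    have h6 : ∀ S ∈ TP X, B * ((X : ℝ) / ((∏ p ∈ S, p : ℕ) : ℝ)) =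
        B * X * (1 / ((∏ p ∈ S, p : ℕ) : ℝ)) := by
      intro S _
      ring
    rw [Finset.sum_congr rfl h6, ← Finset.mul_sum]
    have h7 := mul_le_mul_of_nonneg_left (harm_TP X) (mul_nonneg hB0 (Nat.cast_nonneg X))
    refine h7.trans (le_of_eq ?_)
    ring
  have h6 : 0 ≤ ∑ S ∈ TP X, B * ((X : ℝ) / ((∏ p ∈ S, p : ℕ) : ℝ)) :=
    Finset.sum_nonneg fun _ _ => by positivity
  rw [mul_assoc]
  gcongr

end Pool.Agent.N763.JL.KEY
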